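import Pool.Agent.Helper395.BC.ModSpace
import Pool.Agent.Y803.BG.Sections

/-!
# MP_b814b1_ag, Q1: Butler's conjecture fails in every genus `g ≥ 3`

Let `C` be a curve of genus `g ≥ 3` which is not hyperelliptic (for example a general curve of genus `g`).
There is an irreducible component `W` of the Brill-Noether locus `W^{v-1}_{r,d}(C)`, where
`(r, d, v) = (2 g - 2, 4 g - 3, 2 g)`, such that the general `E ∈ W` is globally generated with
`h⁰(E) = 2 g`, and `M_{E,V}` is not semistable for the general `E ∈ W` and all `2 g`-dimensional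
`V ⊆ H⁰(E)`. In fact `M_{E,V}` is not semistable for every stable bundle `E` of rank `2 g - 2` and degree
`4 g - 3` and every `2 g`-dimensional space `V` of sections which generates `E`.

The starting result `ButlerDisproof` is the case `g = 3`. The curve is given by its function field, vector
bundles by local frames; see `Pool/Agent/Helper395/CS/Defs.lean` and `Pool/Agent/Helper395/BC/Defs.lean`.
The Zariski topology of the moduli space of stable bundles is defined in
`Pool/Agent/Helper395/BC/ModDefs.lean`.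
-/

namespace Pool.Agent.Results.MP_b814b1_ag.ButlerEveryGenus

open Pool.Agent.Helper395.CS hiding genus
open Pool.Agent.Helper395.BC

variable {K : Type} [Field K] [Algebra ℂ K]

/-- `V` generates `E` and has dimension `k`; there is a kernel bundle `M_{E,V}`, its rank is `2` and its degree
is `-deg E`, and it is not semistable -/
def Unstable {n k : ℕ} (E : Bundle K n) (V : Submodule ℂ (Fin n → K)) (b : Module.Basis (Fin k) ℂ V) :
    Prop :=
  IsGeneratedBy E V ∧ (∃ M : Bundle K 2, IsKernelBundle M V b) ∧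
    ∀ (m : ℕ) (M : Bundle K m), IsKernelBundle M V b → m = 2 ∧ M.degree = -E.degree ∧ ¬ IsSemistable M

theorem result (K : Type) [Field K] [Algebra ℂ K] (hK : IsCurve K) (hne : HasNoPencilOfDegreeTwo K)
    (g : ℕ) (hg : genus K = g) (h3 : 3 ≤ g) :
    (∃ W ∈ irreducibleComponents (brillNoetherLocus K (2 * g - 2) (4 * g - 3) (2 * g)),
      ∃ U : Set (brillNoetherLocus K (2 * g - 2) (4 * g - 3) (2 * g)),
        IsOpen U ∧ (U ∩ W).Nonempty ∧
        ∀ x ∈ U ∩ W, ∀ E : StableBundle K (2 * g - 2) (4 * g - 3), E.point = x.1 →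
          IsGeneratedBy E.1 E.1.sections ∧ Module.finrank ℂ E.1.sections = 2 * g ∧
          ∀ (V : Submodule ℂ (Fin (2 * g - 2) → K)) (b : Module.Basis (Fin (2 * g)) ℂ V),
            V ≤ E.1.sections → Unstable E.1 V b) ∧
    ∀ (E : StableBundle K (2 * g - 2) (4 * g - 3)) (V : Submodule ℂ (Fin (2 * g - 2) → K))
      (b : Module.Basis (Fin (2 * g)) ℂ V), IsGeneratedBy E.1 V → Unstable E.1 V b := by
  subst hg
  have hg0 : genus K ≠ 0 := by omega
  have hker : ∀ (E : StableBundle K (2 * genus K - 2) (4 * genus K - 3))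
      (V : Submodule ℂ (Fin (2 * genus K - 2) → K)) (b : Module.Basis (Fin (2 * genus K)) ℂ V),
      IsGeneratedBy E.1 V → Unstable E.1 V b := by
    rintro ⟨E, hE, hd⟩ V b hVg
    refine ⟨hVg, exists_kernelBundle hK b hVg (by omega), fun m M hM => ?_⟩
    obtain ⟨j, hj, hr, hs⟩ := id hM
    obtain ⟨h3, h4⟩ := kernel_rank_degree hK b hVg hj hr hs
    have hm : m = 2 := by omega
    subst hm
    refine ⟨rfl, h4, ?_⟩
    apply kernel_not_semistable hK hg0 hE (by omega) (by rw [hd]; omega) b hVg hM
    · rw [hd]; push_cast; omega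
    · rw [hd]; push_cast; omega
  refine ⟨?_, hker⟩
  obtain ⟨E0, hE0d, hE0s, hE06, hE0g⟩ := Pool.Agent.Y803.BG.exists_stable hK h3 hne
  obtain ⟨W, hW, U, hU, hne', hUW⟩ := exists_component hK hg0 (n := 2 * genus K - 2) (by omega)
    (d := 4 * genus K - 3) (by omega) (2 * genus K)
    (⟨E0, hE0s, hE0d⟩ : StableBundle K (2 * genus K - 2) (4 * genus K - 3)) hE06 hE0g
  refine ⟨W, hW, U, hU, hne', fun x hx E hE => ?_⟩
  obtain ⟨h1, h2⟩ := hUW x hx E hE
  refine ⟨h1, h2, fun V b hV => ?_⟩
  have hfin : FiniteDimensional ℂ E.1.sections := Module.finite_of_finrank_pos (by omega)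
  have hVE : V = E.1.sections := by
    apply Submodule.eq_of_le_of_finrank_le hV
    rw [h2, Module.finrank_eq_card_basis b, Fintype.card_fin]
  have hVg : IsGeneratedBy E.1 V := by
    rw [hVE]
    exact h1
  exact hker E V b hVg

end Pool.Agent.Results.MP_b814b1_ag.ButlerEveryGenus
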